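import Pool.Agent.MP_6c8b06_co.AllDim

/-! The complete graphs that decompose into cubes, for every dimension. -/

set_option autoImplicit false

namespace Pool.Agent.Results.MP_6c8b06_co.AllDimensions

/-- For all `d ≥ 1` and `m ≥ 1`, the complete graph on `m` vertices splits into edge-disjoint copies
of the `d`-cube exactly when `m` is `1` modulo `d 2 ^ d`, or `1` modulo `d` and `0` modulo `2 ^ d`. -/
theorem result :
    ∀ d : ℕ, 0 < d → ∀ m : ℕ, 0 < m →
      ((∃ k : ℕ, ∃ φ : Fin k → (Fin d → Bool) → Fin m,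
          (∀ i, Function.Injective (φ i)) ∧
          ∀ u v : Fin m, u ≠ v →
            ∃! i : Fin k, ∃ x y : Fin d → Bool,
              hammingDist x y = 1 ∧ φ i x = u ∧ φ i y = v) ↔
        (m ≡ 1 [MOD d * 2 ^ d] ∨ (m ≡ 1 [MOD d] ∧ m ≡ 0 [MOD 2 ^ d]))) :=
  fun d hd m hm => Pool.Agent.MP_6c8b06_co.All.main d hd m hm

end Pool.Agent.Results.MP_6c8b06_co.AllDimensions
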